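import Pool.Agent.H77.BD.Targets

/-!
# Row CEN of the board bct_modules: the centralizer
-/

set_option autoImplicit false

open Set Matrix Pool.Agent.H77.BC

namespace Pool.Agent.H77.BD

theorem pf_CEN (_hBRB : T_BRB) (hSPB : T_SPB) (hXEB : T_XEB) (_hNBR : T_NBR) (hCEA : T_CEA)
    (hCEB : T_CEB) (hCEC : T_CEC) (hCED : T_CED) : T_CEN := by
  intro l C hC hl F _ _ g α hg hm
  obtain ⟨μ, hμ⟩ := hCEB hC hl g α hg hm
  refine ⟨μ, ?_⟩
  refine hSPB hC (fun v => g v) (fun v => Xf α μ v) (fun u v => hg.1 u v) (fun a v => hg.2.1 a v)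
    (fun u v => Xf_add α μ u v) (fun a v => Xf_smul α μ a v) ?_ ?_
  · intro γ
    have hX := hXEB hC (F := F) α μ
    by_cases h0 : 0 ≤ ip C α.1 γ.1
    · show g (eb F γ) = Xf α μ (eb F γ)
      rw [hX.1 γ h0]
      exact (hCEA hC g α hg hm).1 γ (by rw [ip_comm hC]; exact h0)
    · by_cases h1 : ip C α.1 γ.1 = -1
      · show g (eb F γ) = Xf α μ (eb F γ)
        rw [hX.2.1 γ (ad hC α γ h1) rfl]
        exact hCEC hC hl g α hg hm μ hμ γ (ad hC α γ h1) rfl
      · have h2 : ip C α.1 γ.1 = -2 := by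
          have := neg_two_le_ip hC α γ
          omega
        have h3 : γ = ng α := Subtype.ext (ip_eq_neg_two hC α γ h2)
        subst h3
        show g (eb F (ng α)) = Xf α μ (eb F (ng α))
        rw [hX.2.2.1]
        exact hCED hC hl g α hg hm μ hμ
  · intro h
    show g (hb h) = Xf α μ (hb h)
    rw [(hXEB hC (F := F) α μ).2.2.2 h]
    exact hμ h

end Pool.Agent.H77.BD
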