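import Pool.Agent.H77.BD.Targets

/-!
# Row MLT of the board bct_modules: groups which meet all root groups in infinite sets
-/

set_option autoImplicit false

open Set Matrix Pool.Agent.H77.BC

namespace Pool.Agent.H77.BD

section
variable {l : ℕ} {C : Matrix (Fin l) (Fin l) ℤ} {F Γ : Type} [Field F] [Group Γ]
  {x : Root C → F → Γ} {τ : (Fin l → Fˣ) →* Γ}

theorem mlt_x_zero (h : CD x τ) (α : Root C) : x α 0 = 1 := by
  have h1 := h.add α 0 0
  rw [add_zero] at h1
  exact (left_eq_mul.mp h1)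

theorem mlt_x_neg (h : CD x τ) (α : Root C) (t : F) : x α (-t) = (x α t)⁻¹ := by
  have h1 := h.add α (-t) t
  rw [neg_add_cancel, mlt_x_zero h] at h1
  exact (eq_inv_of_mul_eq_one_left h1.symm)

/-- the parameters of the elements of `H` in a root group -/
def mltLam (h : CD x τ) (H : Subgroup Γ) (α : Root C) : AddSubgroup F where
  carrier := {t | x α t ∈ H}
  add_mem' := by
    intro a b ha hb
    show x α (a + b) ∈ H
    rw [h.add]
    exact H.mul_mem ha hb
  zero_mem' := by
    show x α 0 ∈ H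
    rw [mlt_x_zero h]
    exact H.one_mem
  neg_mem' := by
    intro a ha
    show x α (-a) ∈ H
    rw [mlt_x_neg h]
    exact H.inv_mem ha

theorem mlt_mem (h : CD x τ) (H : Subgroup Γ) (α : Root C) (t : F) :
    t ∈ mltLam h H α ↔ x α t ∈ H := Iff.rfl

theorem mlt_com (h : CD x τ) (H : Subgroup Γ) (β γ δ : Root C) (hd : δ.1 = β.1 + γ.1) (s t : F)
    (hs : x β s ∈ H) (ht : x γ t ∈ H) : s * t ∈ mltLam h H δ := by
  have h1 := h.com β γ δ hd s t
  have h2 : x δ ((eps C β.1 γ.1 : F) * s * t) = x β s * x γ t * (x γ t * x β s)⁻¹ := by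
    rw [h1, mul_inv_cancel_right]
  have h3 : (eps C β.1 γ.1 : F) * s * t ∈ mltLam h H δ := by
    rw [mlt_mem, h2]
    exact H.mul_mem (H.mul_mem hs ht) (H.inv_mem (H.mul_mem ht hs))
  rcases eps_cases (C := C) β.1 γ.1 with he | he
  · rw [he, Int.cast_one, one_mul] at h3
    exact h3
  · rw [he] at h3
    have h4 := (mltLam h H δ).neg_mem h3
    have h5 : -(((-1 : ℤ) : F) * s * t) = s * t := by
      push_cast
      ring
    rw [h5] at h4
    exact h4

end

theorem pf_MLT {M : Type} (U : RU M) (hMUL : MUL U) (hNBR : T_NBR) : T_MLT U := by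
  intro l C hC hl F Γ _ _ _ _ _ _ _ x τ hx hd H hH hinf
  have hall : ∀ α : Root C, mltLam hx H α = ⊤ := by
    intro α
    obtain ⟨γ, hγ⟩ := hNBR hC hl α
    have hne : ∀ β : Root C, ∃ t ∈ mltLam hx H β, t ≠ 0 := by
      intro β
      obtain ⟨t, ht, hn⟩ := (hinf β).exists_notMem_finite (finite_singleton (0 : F))
      exact ⟨t, ht, hn⟩
    obtain ⟨u, hu, hu0⟩ := hne (ng γ)
    refine hMUL (mltLam hx H α) ?_ ?_ ?_
    · exact DFn_preim (hd α) hH
    · intro hbot
      obtain ⟨t, ht, ht0⟩ := hne α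
      rw [hbot] at ht
      exact ht0 ((AddSubgroup.mem_bot).mp ht)
    · have h1 : (fun s => u * s) '' {s | x γ s ∈ H} ⊆ {l : F | ∀ y ∈ mltLam hx H α, l * y ∈ mltLam hx H α} := by
        rintro _ ⟨s, hs, rfl⟩
        intro t ht
        have hα : ip C γ.1 α.1 = -1 := by rw [ip_comm hC]; exact hγ
        have h2 := mlt_com hx H γ α (ad hC γ α hα) rfl s t hs ht
        have h3 := mlt_com hx H (ng γ) (ad hC γ α hα) α
          (by rw [ng_val, ad_val]; abel) u (s * t) hu h2
        rw [← mul_assoc] at h3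
        exact h3
      exact Infinite.mono h1 ((hinf γ).image (fun a _ b _ hab => mul_left_cancel₀ hu0 hab))
  rw [eq_top_iff, ← hx.gen, Subgroup.closure_le]
  rintro g ⟨β, t, rfl⟩
  have h1 : t ∈ mltLam hx H β := by
    rw [hall β]
    exact AddSubgroup.mem_top t
  exact h1

end Pool.Agent.H77.BD
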